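import Mathlib
import Pool.Agent.P.MP_41c62e_nt.Defs
import Pool.Agent.P.MP_41c62e_nt.Main

/-! The dimension spectrum of `{1, q, q^2, ...}` is nowhere dense above `ln 2 / (2 ln q)`. -/

namespace Pool.Agent.Results.MP_41c62e_nt.NowhereDense

open Pool.Agent.P.MP_41c62e_nt

/-- For every integer `q ≥ 2`, the part of `DS(P_q^*)` lying above `ln 2 / (2 ln q)` is a nowhere
dense subset of the real line. -/
theorem result (q : ℕ) (hq : 2 ≤ q) :
    IsNowhereDense (DS (Pstar q) ∩ Set.Ioi (Real.log 2 / (2 * Real.log q))) :=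
  main hq

end Pool.Agent.Results.MP_41c62e_nt.NowhereDense
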